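import Mathlib
import Pool.Agent.X309.LI4
import Pool.Agent.H319R2.LeighBridge

set_option autoImplicit false

/-!
# Leigh's second conjecture for maps of coprime type that are injective on a forward image

`T`, `Class`, `S`, `Lam` are the map, the finite closed communicating classes of Leigh's chain with
their stationary distribution, the union `S_C` and the number `Λ_C`, as in the library file
`Pool.Agent.H319R2.LeighBridge`; a state `(j, k)` is the class of `j` modulo `d k`. `states d` is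
the set of the states `B(0, d), …, B(d - 1, d)`, the only ones of a map of coprime type.
-/

namespace Pool.Agent.Results.MP_39d40e_nt.InjectiveMaps

open Finset Pool.Agent.H319R2.Leigh Pool.Agent.H319R2.M

/-- the states `B(0, d), …, B(d - 1, d)` -/
def states (d : ℕ) : Finset (ℤ × ℕ) := (range d).image fun i : ℕ => ((i : ℤ), 1)

/-- an example: `T(3k) = 2k`, `T(3k+1) = 4k+1`, `T(3k+2) = 8k+3` -/
def m₀ (i : ℤ) : ℤ := if i = 0 then 2 else if i = 1 then 4 else 8

/-- the remainders of the example -/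
def r₀ (i : ℤ) : ℤ := if i = 0 then 0 else if i = 1 then 1 else 7

theorem mem_states {d : ℕ} {B : ℤ × ℕ} : B ∈ states d ↔ 0 ≤ B.1 ∧ B.1 < d ∧ B.2 = 1 := by
  unfold states
  rw [mem_image]
  constructor
  · rintro ⟨i, hi, rfl⟩
    rw [mem_range] at hi
    have hi' : (i : ℤ) < d := by exact_mod_cast hi
    exact ⟨by positivity, hi', rfl⟩
  · rintro ⟨h0, h1, h2⟩
    refine ⟨B.1.toNat, ?_, ?_⟩
    · rw [mem_range]; omega
    · obtain ⟨j, k⟩ := B
      simp only at h0 h1 h2 ⊢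
      rw [Int.toNat_of_nonneg h0, h2]

theorem card_states (d : ℕ) : (states d).card = d := by
  unfold states
  rw [card_image_of_injective, card_range]
  intro a b hab
  simp only [Prod.mk.injEq, and_true] at hab
  exact_mod_cast hab

theorem P_states {d : ℕ} {m r : ℤ → ℤ} {B B' : ℤ × ℕ} (hB : B ∈ states d) (hB' : B' ∈ states d) :
    P d m r (fun _ => 1) B B' = 1 / d := by
  rw [mem_states] at hB hB'
  unfold P
  rw [if_pos]
  · rw [hB.2.2]; simp
  · refine ⟨?_, hB'.1, ?_, ?_⟩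
    · rw [hB.2.2, hB'.2.2]; simp
    · rw [hB'.2.2]; push_cast; linarith [hB'.2.1]
    · rw [hB.2.2]
      simp only [mul_one, Nat.cast_one]
      exact Int.modEq_one

theorem class_states {d : ℕ} (hd : 2 ≤ d) (m r : ℤ → ℤ) :
    Class d m r (fun _ => 1) (states d) (fun _ => 1 / (d : ℝ)) := by
  have hd0 : (0 : ℝ) < d := by
    have : 0 < d := by omega
    exact_mod_cast this
  refine ⟨?_, ?_, ?_, ?_, ?_, ?_⟩
  · intro B hB
    rw [mem_states] at hB
    refine ⟨hB.1, ?_, 0, ?_⟩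
    · rw [hB.2.2]; push_cast; linarith [hB.2.1]
    · rw [hB.2.2]; simp
  · intro B hB B' hpos
    unfold P at hpos
    split_ifs at hpos with h
    · rw [mem_states] at hB ⊢
      obtain ⟨h1, h2, h3, -⟩ := h
      rw [hB.2.2] at h1
      have h4 : B'.2 = 1 := by simpa using h1
      rw [h4] at h3
      exact ⟨h2, by push_cast at h3; linarith, h4⟩
    · exact absurd hpos (lt_irrefl _)
  · intro B hB B' hB'
    apply Relation.ReflTransGen.single
    rw [P_states hB hB']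
    positivity
  · intro B _
    positivity
  · rw [sum_const, card_states, nsmul_eq_mul]
    field_simp
  · intro B' hB'
    rw [sum_congr rfl (fun B hB => by rw [P_states hB hB'])]
    rw [sum_const, card_states, nsmul_eq_mul]
    field_simp

theorem S_states {d : ℕ} (hd : 2 ≤ d) : S d (states d) = Set.univ := by
  ext x
  simp only [Set.mem_univ, iff_true]
  have hd0 : (0 : ℤ) < d := by omega
  refine ⟨(x % d, 1), ?_, ?_⟩
  · rw [mem_states]
    exact ⟨Int.emod_nonneg _ hd0.ne', Int.emod_lt_of_pos _ hd0, rfl⟩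
  · simp only [mul_one]
    exact (Int.mod_modEq _ _).symm

theorem Lam_states {d : ℕ} (hd : 2 ≤ d) (m : ℤ → ℤ) :
    Lam d m (states d) (fun _ => 1 / (d : ℝ)) = (∏ i ∈ range d, |(m i : ℝ)| / d) ^ (1 / (d : ℝ)) := by
  unfold Lam
  rw [← Real.finsetProd_rpow _ _ (fun i _ => by positivity)]
  apply prod_congr rfl
  intro i hi
  rw [mem_range] at hi
  congr 1
  unfold freq
  have : (states d).filter (fun B => B.1 % (d : ℤ) = (i : ℤ)) = {((i : ℤ), 1)} := by
    ext B
    rw [mem_filter, mem_states, mem_singleton]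
    constructor
    · rintro ⟨⟨h0, h1, h2⟩, h3⟩
      rw [Int.emod_eq_of_lt h0 h1] at h3
      exact Prod.ext h3 h2
    · rintro rfl
      have hi' : (i : ℤ) < d := by exact_mod_cast hi
      refine ⟨⟨by positivity, hi', rfl⟩, ?_⟩
      exact Int.emod_eq_of_lt (by positivity) hi'
  rw [this, sum_singleton]

/-- the data of a map of coprime type -/
theorem mk_data {d : ℕ} (hd : 2 ≤ d) {m r : ℤ → ℤ}
    (hm : ∀ i : ℤ, 0 ≤ i → i < d → IsCoprime (m i) (d : ℤ))
    (hr : ∀ i : ℤ, 0 ≤ i → i < d → r i ≡ i * m i [ZMOD d]) : Data d m r m (fun _ => 1) where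
  two_le := hd
  fac := fun i _ _ => by simp
  cop := hm
  pos := fun _ _ _ => le_rfl
  dvd_pow := fun _ _ _ => ⟨0, by simp⟩
  cong := hr

theorem ex_val (k : ℤ) : T 3 m₀ r₀ (3 * k) = 2 * k ∧ T 3 m₀ r₀ (3 * k + 1) = 4 * k + 1 ∧
    T 3 m₀ r₀ (3 * k + 2) = 8 * k + 3 := by
  unfold T m₀ r₀
  have h0 : (3 * k) % ((3 : ℕ) : ℤ) = 0 := by push_cast; omega
  have h1 : (3 * k + 1) % ((3 : ℕ) : ℤ) = 1 := by push_cast; omega
  have h2 : (3 * k + 2) % ((3 : ℕ) : ℤ) = 2 := by push_cast; omega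
  rw [h0, h1, h2]
  norm_num
  refine ⟨?_, ?_, ?_⟩ <;> omega

theorem ex_cases (x : ℤ) : ∃ k : ℤ, (x = 3 * k ∧ T 3 m₀ r₀ x = 2 * k) ∨
    (x = 3 * k + 1 ∧ T 3 m₀ r₀ x = 4 * k + 1) ∨ (x = 3 * k + 2 ∧ T 3 m₀ r₀ x = 8 * k + 3) := by
  obtain ⟨h1, h2, h3⟩ := ex_val (x / 3)
  rcases (by omega : x % 3 = 0 ∨ x % 3 = 1 ∨ x % 3 = 2) with h | h | h
  · refine ⟨x / 3, Or.inl ⟨by omega, ?_⟩⟩
    rw [← h1]; congr 1; omega
  · refine ⟨x / 3, Or.inr (Or.inl ⟨by omega, ?_⟩)⟩
    rw [← h2]; congr 1; omega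
  · refine ⟨x / 3, Or.inr (Or.inr ⟨by omega, ?_⟩)⟩
    rw [← h3]; congr 1; omega

/-- The result: generalised Collatz maps of coprime type, injective on a forward image. -/
theorem result :
    (∀ (d : ℕ) (m r : ℤ → ℤ), 2 ≤ d →
      (∀ i : ℤ, 0 ≤ i → i < d → IsCoprime (m i) (d : ℤ)) →
      (∀ i : ℤ, 0 ≤ i → i < d → r i ≡ i * m i [ZMOD d]) →
      -- the condition on the forward images makes the sum of the reciprocals small
      (∀ K : ℕ, Set.InjOn (T d m r) (Set.range (T d m r)^[K]) →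
        Set.range (T d m r)^[K + 1] ≠ Set.range (T d m r)^[K] →
        ∑ i ∈ range d, 1 / |(m i : ℝ)| < 1) ∧
      (∑ i ∈ range d, 1 / |(m i : ℝ)| < 1 →
        Class d m r (fun _ => 1) (states d) (fun _ => 1 / (d : ℝ)) ∧
        S d (states d) = Set.univ ∧
        1 < Lam d m (states d) (fun _ => 1 / (d : ℝ)) ∧
        ∃ s : ℝ, 0 < s ∧ s < 1 ∧ ∑ i ∈ range d, |(m i : ℝ)| ^ (-s) = 1 ∧
          -- periodic integers
          (∃ C : ℝ, ∀ X : ℝ, 1 ≤ X →
            (Set.ncard {x : ℤ | (∃ p : ℕ, 0 < p ∧ (T d m r)^[p] x = x) ∧ |(x : ℝ)| ≤ X} : ℝ) ≤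
              C * X ^ s) ∧
          -- cycling trajectories
          (∀ K : ℕ, Set.InjOn (T d m r) (Set.range (T d m r)^[K]) →
            ∃ C : ℝ, ∀ X : ℝ, 1 ≤ X →
              (Set.ncard {x : ℤ | (∃ a p : ℕ, 0 < p ∧ (T d m r)^[a + p] x = (T d m r)^[a] x) ∧
                |(x : ℝ)| ≤ X} : ℝ) ≤ C * X ^ s))) ∧
    -- an example with a contracting branch
    ((∀ i : ℤ, 0 ≤ i → i < (3 : ℕ) → IsCoprime (m₀ i) ((3 : ℕ) : ℤ)) ∧
      (∀ i : ℤ, 0 ≤ i → i < (3 : ℕ) → r₀ i ≡ i * m₀ i [ZMOD (3 : ℕ)]) ∧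
      (∀ k : ℤ, T 3 m₀ r₀ (3 * k) = 2 * k ∧ T 3 m₀ r₀ (3 * k + 1) = 4 * k + 1 ∧
        T 3 m₀ r₀ (3 * k + 2) = 8 * k + 3) ∧
      Function.Injective (T 3 m₀ r₀) ∧ ¬ Function.Surjective (T 3 m₀ r₀)) := by
  refine ⟨?_, ?_, ?_, ex_val, ?_, ?_⟩
  · intro d m r hd hm hr
    set D := mk_data hd hm hr with hD
    have hc : X309.LI.Cop (gm D) := hm
    refine ⟨?_, ?_⟩
    · intro K hinj hne
      exact X309.LI.sum_lt_of_inj (gm D) hc K hinj hne
    · intro hσ
      have hσ' : ∑ i ∈ range (gm D).d, 1 / |((gm D).m i : ℝ)| < 1 := hσ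
      refine ⟨class_states hd m r, S_states hd, ?_, ?_⟩
      · rw [Lam_states hd]
        have h1 : 1 < ∏ i ∈ range d, |(m i : ℝ)| / d := X309.LI.expand (gm D) hσ'
        have hd0 : (0 : ℝ) < d := by
          have : 0 < d := by omega
          exact_mod_cast this
        exact Real.one_lt_rpow h1 (by positivity)
      · obtain ⟨s, hs0, hs1, hs⟩ := X309.LI.exists_s (gm D) hσ'
        refine ⟨s, hs0, hs1, hs, ?_, ?_⟩
        · refine ⟨(X309.LI.Bd (gm D) * 2) ^ s, ?_⟩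
          intro X hX
          apply ncard_le (A := {x : ℤ | ∃ p : ℕ, 0 < p ∧ (T d m r)^[p] x = x})
          intro F hF
          refine (X309.LI.per_fin (gm D) hc hσ' s hs0 hs X hX F hF).trans (le_of_eq ?_)
          have hB : 0 ≤ X309.LI.Bd (gm D) := by
            unfold X309.LI.Bd
            exact sum_nonneg fun _ _ => abs_nonneg _
          rw [← Real.mul_rpow (by positivity) (by linarith), mul_assoc]
        · intro K hinj
          refine ⟨(d : ℝ) ^ K * (X309.LI.Bd (gm D) * (2 * (X309.LI.Bd (gm D) + (gm D).R) ^ K)) ^ s,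
            fun X hX => ?_⟩
          apply ncard_le (A := {x : ℤ | ∃ a p : ℕ, 0 < p ∧ (T d m r)^[a + p] x = (T d m r)^[a] x})
          intro F hF
          exact X309.LI.cyc_fin (gm D) hc hσ' s hs0 hs K hinj X hX F hF
  · intro i h0 h1
    rcases (by omega : i = 0 ∨ i = 1 ∨ i = 2) with rfl | rfl | rfl <;>
      rw [Int.isCoprime_iff_gcd_eq_one] <;> decide
  · intro i h0 h1
    rcases (by omega : i = 0 ∨ i = 1 ∨ i = 2) with rfl | rfl | rfl <;> decide
  · intro x y hxy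
    obtain ⟨k, hk⟩ := ex_cases x
    obtain ⟨l, hl⟩ := ex_cases y
    omega
  · intro hs
    obtain ⟨x, hx⟩ := hs 7
    obtain ⟨k, hk⟩ := ex_cases x
    omega

end Pool.Agent.Results.MP_39d40e_nt.InjectiveMaps
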