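import Mathlib
import Pool.Agent.X61.RT.LightRel

/-!
# The primes of the terms of the trajectories of generalized Collatz maps

`T (x) = (m_i x - r_i) / d` for `x ≡ i mod d`, any `d ≥ 2` and nonzero `m_i`. If the first `N` terms of
a trajectory are different (for instance if it diverges) and `P` is any set of at most `c log N`
primes, then those terms `y` whose `P`-free part is at most `|y| ^ κ`, `κ < 1 / 4`, have only
`O (N / log N)` different parts prime to `M = d m_0 ⋯ m_{d-1}`: up to powers of the primes dividing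
`M` there are few of them.
-/

set_option autoImplicit false

namespace Pool.Agent.Results.MP_39d40e_nt.LightMembers

open Finset

/-- The generalized Collatz map `T (x) = (m_i x - r_i) / d`, `x ≡ i mod d`. -/
def T (d : ℕ) (m r : ℤ → ℤ) (x : ℤ) : ℤ := (m (x % (d : ℤ)) * x - r (x % (d : ℤ))) / d

/-- The `P`-free part of `n`: the largest divisor of `|n|` without prime factors in `P`. -/
def outside (P : Finset ℕ) (n : ℤ) : ℕ :=
  ∏ p ∈ n.natAbs.primeFactors \ P, p ^ n.natAbs.factorization p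

/-- The part of `n` prime to `M`: the largest divisor of `|n|` prime to `M` (`1` for `n = 0`). -/
def primeTo (M : ℕ) (n : ℤ) : ℕ :=
  ∏ p ∈ n.natAbs.primeFactors.filter (fun p => ¬ p ∣ M), p ^ n.natAbs.factorization p

/-- `M = d |m_0 ⋯ m_{d-1}|`. -/
def modulus (d : ℕ) (m : ℤ → ℤ) : ℕ := d * ∏ i ∈ range d, (m i).natAbs

lemma primeTo_mul {M : ℕ} {a n : ℤ} (ha : a ≠ 0) (hn : n ≠ 0)
    (h : ∀ p : ℕ, p.Prime → p ∣ a.natAbs → p ∣ M) : primeTo M (a * n) = primeTo M n := by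
  unfold primeTo
  have ha' := Int.natAbs_ne_zero.2 ha
  have hn' := Int.natAbs_ne_zero.2 hn
  rw [Int.natAbs_mul]
  have h1 : (a.natAbs * n.natAbs).primeFactors.filter (fun p => ¬ p ∣ M) =
      n.natAbs.primeFactors.filter (fun p => ¬ p ∣ M) := by
    ext p
    simp only [Finset.mem_filter, Nat.mem_primeFactors]
    constructor
    · rintro ⟨⟨hp, hd, -⟩, hM⟩
      refine ⟨⟨hp, ?_, hn'⟩, hM⟩
      rcases (Nat.Prime.dvd_mul hp).1 hd with h' | h'
      · exact absurd (h p hp h') hM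
      · exact h'
    · rintro ⟨⟨hp, hd, -⟩, hM⟩
      exact ⟨⟨hp, Dvd.dvd.mul_left hd _, Nat.mul_ne_zero ha' hn'⟩, hM⟩
  rw [h1]
  refine Finset.prod_congr rfl fun p hp => ?_
  obtain ⟨hp1, hp2⟩ := Finset.mem_filter.1 hp
  have hpp := Nat.prime_of_mem_primeFactors hp1
  rw [Nat.factorization_mul ha' hn', Finsupp.add_apply,
    Nat.factorization_eq_zero_of_not_dvd (fun h' => hp2 (h p hpp h')), zero_add]

/-- the product of the multipliers -/
def AA (d : ℕ) (m r : ℤ → ℤ) (x : ℤ) : ℕ → ℤ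
  | 0 => 1
  | n + 1 => m ((T d m r)^[n] x % (d : ℤ)) * AA d m r x n

/-- the constant term -/
def cc (d : ℕ) (m r : ℤ → ℤ) (x : ℤ) : ℕ → ℤ
  | 0 => 0
  | n + 1 => m ((T d m r)^[n] x % (d : ℤ)) * cc d m r x n +
      (d : ℤ) ^ n * r ((T d m r)^[n] x % (d : ℤ))

section

variable {d : ℕ} (hd : 2 ≤ d) {m r : ℤ → ℤ}
  (hmr : ∀ i : ℤ, 0 ≤ i → i < (d : ℤ) → m i ≠ 0 ∧ r i ≡ i * m i [ZMOD (d : ℤ)])

include hd in
lemma emod_mem (x : ℤ) : 0 ≤ x % (d : ℤ) ∧ x % (d : ℤ) < d := by
  have h0 : (0 : ℤ) < d := by exact_mod_cast (by omega : 0 < d)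
  exact ⟨Int.emod_nonneg x h0.ne', Int.emod_lt_of_pos x h0⟩

include hd hmr in
lemma T_mul (x : ℤ) : (d : ℤ) * T d m r x = m (x % (d : ℤ)) * x - r (x % (d : ℤ)) := by
  unfold T
  refine Int.mul_ediv_cancel' ?_
  obtain ⟨h1, h2⟩ := emod_mem hd x
  have h3 := (hmr _ h1 h2).2
  have h4 : (x % (d : ℤ)) * m (x % (d : ℤ)) ≡ m (x % (d : ℤ)) * x [ZMOD (d : ℤ)] := by
    rw [mul_comm]
    exact (Int.mod_modEq x d).mul_left _
  exact Int.ModEq.dvd (h3.trans h4)

include hd hmr in
lemma affine (x : ℤ) (n : ℕ) :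
    (d : ℤ) ^ n * (T d m r)^[n] x = AA d m r x n * x - cc d m r x n := by
  induction n with
  | zero => simp [AA, cc]
  | succ n ih =>
    rw [Function.iterate_succ_apply', pow_succ, mul_assoc, T_mul hd hmr, AA, cc]
    have : (d : ℤ) ^ n * (m ((T d m r)^[n] x % (d : ℤ)) * (T d m r)^[n] x -
        r ((T d m r)^[n] x % (d : ℤ))) =
      m ((T d m r)^[n] x % (d : ℤ)) * ((d : ℤ) ^ n * (T d m r)^[n] x) -
        (d : ℤ) ^ n * r ((T d m r)^[n] x % (d : ℤ)) := by ring
    rw [this, ih]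
    ring

/-- the bounds for the coefficients -/
def S0 (d : ℕ) (m : ℤ → ℤ) : ℕ := ∑ j ∈ range d, (m j).natAbs

include hd in
lemma S0_le (x : ℤ) : |m (x % (d : ℤ))| ≤ S0 d m := by
  obtain ⟨h1, h2⟩ := emod_mem hd x
  obtain ⟨j, hj⟩ := Int.eq_ofNat_of_zero_le h1
  have hjd : j < d := by
    rw [hj] at h2
    exact_mod_cast h2
  rw [hj, Int.abs_eq_natAbs]
  unfold S0
  exact_mod_cast Finset.single_le_sum (f := fun j : ℕ => (m j).natAbs) (fun _ _ => Nat.zero_le _)
    (Finset.mem_range.2 hjd)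

include hd hmr in
lemma AA_ne (x : ℤ) (n : ℕ) : AA d m r x n ≠ 0 := by
  induction n with
  | zero => exact one_ne_zero
  | succ n ih =>
    obtain ⟨h1, h2⟩ := emod_mem hd ((T d m r)^[n] x)
    exact mul_ne_zero (hmr _ h1 h2).1 ih

include hd in
lemma AA_prime (x : ℤ) (n : ℕ) (p : ℕ) (hp : p.Prime) (h : p ∣ (AA d m r x n).natAbs) :
    p ∣ modulus d m := by
  induction n with
  | zero =>
    simp only [AA, Int.natAbs_one, Nat.dvd_one] at h
    exact absurd h hp.ne_one
  | succ n ih =>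
    rw [AA, Int.natAbs_mul] at h
    rcases (Nat.Prime.dvd_mul hp).1 h with h' | h'
    · obtain ⟨h1, h2⟩ := emod_mem hd ((T d m r)^[n] x)
      obtain ⟨j, hj⟩ := Int.eq_ofNat_of_zero_le h1
      rw [hj] at h' h2
      have hjd : j < d := by exact_mod_cast h2
      refine h'.trans (Dvd.dvd.mul_left ?_ _)
      exact Finset.dvd_prod_of_mem (fun j : ℕ => (m j).natAbs) (Finset.mem_range.2 hjd)
    · exact ih h'

include hd in
lemma bounds (x : ℤ) (n : ℕ) : |AA d m r x n| ≤ ((S0 d m + d + S0 d r : ℕ) : ℤ) ^ n ∧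
    |cc d m r x n| ≤ ((S0 d m + d + S0 d r : ℕ) : ℤ) ^ n := by
  induction n with
  | zero => simp [AA, cc]
  | succ n ih =>
    obtain ⟨ih1, ih2⟩ := ih
    have h1 := S0_le (m := m) hd ((T d m r)^[n] x)
    have h2 := S0_le (m := r) hd ((T d m r)^[n] x)
    set L : ℤ := ((S0 d m + d + S0 d r : ℕ) : ℤ) with hL
    have hLm : (S0 d m : ℤ) ≤ L := by rw [hL]; exact_mod_cast (by omega)
    have hLd : (d : ℤ) ≤ L := by rw [hL]; exact_mod_cast (by omega)
    have hL0 : 0 ≤ L := by rw [hL]; positivity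
    have hs : (S0 d m : ℤ) + S0 d r ≤ L := by rw [hL]; exact_mod_cast (by omega)
    have hp : (0 : ℤ) ≤ L ^ n := by positivity
    refine ⟨?_, ?_⟩
    · rw [AA, abs_mul, pow_succ, mul_comm]
      exact mul_le_mul ih1 (h1.trans hLm) (abs_nonneg _) hp
    · have h3 : (0 : ℤ) ≤ (d : ℤ) ^ n := by positivity
      have h4 : (d : ℤ) ^ n ≤ L ^ n := pow_le_pow_left₀ (by positivity) hLd n
      rw [cc, pow_succ]
      refine (abs_add_le _ _).trans ?_
      rw [abs_mul, abs_mul, abs_of_nonneg h3]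
      calc |m ((T d m r)^[n] x % (d : ℤ))| * |cc d m r x n| +
            (d : ℤ) ^ n * |r ((T d m r)^[n] x % (d : ℤ))|
          ≤ S0 d m * L ^ n + L ^ n * S0 d r := by gcongr
        _ = L ^ n * (S0 d m + S0 d r) := by ring
        _ ≤ L ^ n * L := by gcongr

end

/-- **Primes of the terms.** Let `d ≥ 2`, `m_i ≠ 0`, `r_i ≡ i m_i mod d`, and `κ ∈ [0, 1/4)`. There are
`c`, `C > 0` such that for every integer `x`, all `N ≥ 2` for which the first `N` terms of the
trajectory of `x` are different, and all sets `P` of at most `c log N` primes, the nonzero terms `y`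
among them with a `P`-free part at most `|y| ^ κ` have at most `C N / log N` different parts prime to
`M = d |m_0 ⋯ m_{d-1}|`. -/
theorem result : ∀ (d : ℕ) (m r : ℤ → ℤ), 2 ≤ d →
    (∀ i : ℤ, 0 ≤ i → i < (d : ℤ) → m i ≠ 0 ∧ r i ≡ i * m i [ZMOD (d : ℤ)]) →
    ∀ κ : ℝ, 0 ≤ κ → κ < 1 / 4 → ∃ c C : ℝ, 0 < c ∧ 0 < C ∧ ∀ (x : ℤ) (N : ℕ), 2 ≤ N →
      (∀ i < N, ∀ j < N, (T d m r)^[i] x = (T d m r)^[j] x → i = j) →
      ∀ P : Finset ℕ, (P.card : ℝ) ≤ c * Real.log N →
      ((((range N).filter fun i => (T d m r)^[i] x ≠ 0 ∧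
        (outside P ((T d m r)^[i] x) : ℝ) ≤ |((T d m r)^[i] x : ℝ)| ^ κ).image
          fun i => primeTo (modulus d m) ((T d m r)^[i] x)).card : ℝ) ≤ C * (N / Real.log N) := by
  classical
  intro d m r hd hmr κ hκ0 hκ
  obtain ⟨c, C, hc, hC, hmain⟩ := Pool.Agent.X61.RT.light_rare κ hκ0 hκ (S0 d m + d + S0 d r)
    (by omega)
  refine ⟨c, C, hc, hC, ?_⟩
  intro x N hN hinj P hP
  have hN1 : (1 : ℝ) ≤ N := by exact_mod_cast (by omega : 1 ≤ N)
  have hit : ∀ i j : ℕ, (fun i : ℕ => i + 1)^[j] i = i + j := by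
    intro i j
    induction j with
    | zero => rfl
    | succ j ih => rw [Function.iterate_succ_apply', ih]; rfl
  set Bad := (range N).filter fun i => (T d m r)^[i] x ≠ 0 ∧
        (outside P ((T d m r)^[i] x) : ℝ) ≤ |((T d m r)^[i] x : ℝ)| ^ κ with hBad
  set g : ℕ → ℕ := fun i => primeTo (modulus d m) ((T d m r)^[i] x) with hg
  -- one term for every part
  have hsel : ∀ u ∈ Bad.image g, ∃ i ∈ Bad, g i = u := fun u hu => Finset.mem_image.1 hu
  choose! s hs1 hs2 using hsel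
  set B' := (Bad.image g).image s with hB'
  have hsinj : Set.InjOn s (Bad.image g : Set ℕ) := by
    intro u hu v hv h
    rw [← hs2 u hu, ← hs2 v hv, h]
  have hcard : (Bad.image g).card = B'.card := by
    rw [hB', Finset.card_image_of_injOn hsinj]
  have hsub : ∀ i ∈ B', i ∈ Bad := by
    intro i hi
    obtain ⟨u, hu, rfl⟩ := Finset.mem_image.1 hi
    exact hs1 u hu
  have hginj : ∀ i ∈ B', ∀ j ∈ B', g i = g j → i = j := by
    intro i hi j hj h
    obtain ⟨u, hu, rfl⟩ := Finset.mem_image.1 hi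
    obtain ⟨v, hv, rfl⟩ := Finset.mem_image.1 hj
    rw [hs2 u hu, hs2 v hv] at h
    rw [h]
  rw [hcard]
  refine hmain (fun i : ℕ => i + 1) (fun i => (T d m r)^[i] x) Set.univ 1 N B' P
    (Set.mapsTo_univ _ _) (fun i _ j _ h => by simpa using h) one_ne_zero hN
    (fun _ _ => Set.mem_univ _) ?_ ?_ ?_ ?_ (by simpa using hP) (by
      rw [Int.cast_one, abs_one]
      exact Real.one_le_rpow hN1 hc.le)
  · intro i hi
    obtain ⟨h1, h2, h3⟩ := Finset.mem_filter.1 (hsub i hi)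
    refine ⟨h2, ?_⟩
    have hnr : 0 < |((T d m r)^[i] x : ℝ)| := abs_pos.2 (by exact_mod_cast h2)
    rw [← Real.log_rpow hnr]
    exact Real.log_le_log (by exact_mod_cast Pool.Agent.X61.RT.free_pos P _) h3
  · intro i hi j hj h
    exact hinj i (Finset.mem_range.1 (Finset.mem_filter.1 (hsub i hi)).1) j
      (Finset.mem_range.1 (Finset.mem_filter.1 (hsub j hj)).1) h
  · intro i hi j hj1 hj2
    obtain ⟨-, h2, -⟩ := Finset.mem_filter.1 (hsub i hi)
    obtain ⟨-, h2', -⟩ := Finset.mem_filter.1 (hsub _ hj2)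
    have hd1 : (1 : ℤ) ≤ d := by exact_mod_cast (by omega : 1 ≤ d)
    have hLd : (d : ℤ) ≤ ((S0 d m + d + S0 d r : ℕ) : ℤ) := by exact_mod_cast (by omega)
    obtain ⟨hb1, hb2⟩ := bounds (m := m) (r := r) hd ((T d m r)^[i] x) j
    have haff := affine hd hmr ((T d m r)^[i] x) j
    have hval : (T d m r)^[(fun i : ℕ => i + 1)^[j] i] x = (T d m r)^[j] ((T d m r)^[i] x) := by
      rw [hit, add_comm i j, Function.iterate_add_apply]
    refine ⟨AA d m r ((T d m r)^[i] x) j, - cc d m r ((T d m r)^[i] x) j, (d : ℤ) ^ j,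
      AA_ne hd hmr _ _, ?_, by positivity, hb1, by rw [abs_neg]; exact hb2, ?_, ?_⟩
    · intro h
      rw [neg_eq_zero] at h
      rw [h, sub_zero] at haff
      have h5 : g ((fun i : ℕ => i + 1)^[j] i) = g i := by
        simp only [hg]
        rw [hval]
        have h6 : (T d m r)^[j] ((T d m r)^[i] x) ≠ 0 := by
          rw [← hval]; exact h2'
        rw [← primeTo_mul (a := (d : ℤ) ^ j) (by positivity) h6 (by
            intro p hp hpd
            rw [Int.natAbs_pow, Int.natAbs_natCast] at hpd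
            exact (hp.dvd_of_dvd_pow hpd).trans (Dvd.intro _ rfl)),
          haff, primeTo_mul (AA_ne hd hmr _ _) h2 (fun p hp hpd => AA_prime hd _ _ p hp hpd)]
      have h7 := hginj _ hj2 i hi h5
      rw [hit] at h7
      omega
    · rw [abs_of_nonneg (by positivity)]
      exact pow_le_pow_left₀ (by positivity) hLd j
    · simp only [hval]
      rw [haff]
      ring
  · intro J
    refine ⟨range (N + J), by rw [card_range], ?_⟩
    intro i hi j hj
    rw [hit, Finset.mem_range]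
    have := Finset.mem_range.1 (Finset.mem_filter.1 (hsub i hi)).1
    omega

end Pool.Agent.Results.MP_39d40e_nt.LightMembers
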