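import Pool.Agent.X17.LC.C
import Pool.Agent.X17.LC.D

/-!
# Leigh's Markov chain and integers with random or missing digits

Let `T` be a generalised Collatz map modulo `d`, `q` a base coprime to `d`, `f` a nonconstant integer polynomial, `A`
an arbitrary integer, and let `n` be a random natural number with `L` independent digits in base `q`, where for a fixed
`Δ` coprime to `d` at each place some two digits with difference `Δ` have probability at least `c > 0`.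

1. The residues modulo `d` of the first `t` terms of the trajectory of `f (A + n)` have, for `t` up to a constant times
`L / log L`, the law which they have for `f` of a uniformly distributed class modulo `d ^ t` (for `f = X` the law of
Leigh's chain), up to `O (exp (- δ L / t))` in total variation, uniformly in `A` and the map.
2. If `C` is a finite closed communicating class of Leigh's chain, then outside an event of probability
`O (y ^ (- δ))`, uniformly in `A`, the trajectory of `x = f (A + n)`, if `x ∈ S_C`, follows the law `Λ_C ^ j |x|` for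
`log_d Y` steps, for all `Y` with `y ≤ Y ≤ exp (c₀ L)`.
3, 4. So it comes down if `Λ_C < 1` and goes up if `Λ_C > 1`, outside an event of probability `O (exp (- δ L))`.
5. The same for the integers with `L` digits in a set with two digits whose difference is coprime to `d`.
-/

set_option autoImplicit false

namespace Pool.Agent.Results.MP_39d40e_nt.RandomDigits

open Finset Polynomial Pool.Agent.H319R2.Leigh

/-- For `d ^ j ≤ Y` the term `T^j x` of the trajectory of `x` has absolute value `L ^ j |x|`, up to a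
factor between `Y ^ (-ε)` and `Y ^ ε`. -/
def Follows (d : ℕ) (m r : ℤ → ℤ) (L ε Y : ℝ) (x : ℤ) : Prop :=
  ∀ j : ℕ, (d : ℝ) ^ j ≤ Y →
    Y ^ (-ε) * L ^ j * |(x : ℝ)| ≤ |(((T d m r)^[j] x : ℤ) : ℝ)| ∧
    |(((T d m r)^[j] x : ℤ) : ℝ)| ≤ Y ^ ε * L ^ j * |(x : ℝ)|

/-- the residues modulo `d` of the first `t` terms of the trajectory of `x` -/
def residues (d : ℕ) (m r : ℤ → ℤ) (t : ℕ) (x : ℤ) : Fin t → ℤ := fun j => (T d m r)^[(j : ℕ)] x % d

/-- The integer with the digits `x 0, x 1, …, x (L - 1)` in base `q`. -/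
def number (q : ℕ) {L : ℕ} (x : Fin L → Fin q) : ℕ := ∑ j : Fin L, (x j : ℕ) * q ^ (j : ℕ)

open Classical in
/-- The probability that the random integer with `L` independent digits in base `q`, where the digit at
the place `j` is `x` with probability `ν j x`, has the property `P`. -/
noncomputable def Prob {q L : ℕ} (ν : Fin L → Fin q → ℝ) (P : ℕ → Prop) : ℝ :=
  ∑ x : Fin L → Fin q, if P (number q x) then ∏ j, ν j (x j) else 0

/-- The `ν j` are probability laws on the digits, and for each place `j` there are two digits `a` and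
`a' = a + Δ` whose probabilities are at least `c`; `Δ` is positive and coprime to `d`. -/
structure DigitLaws (d q Δ : ℕ) (c : ℝ) {L : ℕ} (ν : Fin L → Fin q → ℝ) : Prop where
  pos : 0 < Δ
  cop : Nat.Coprime Δ d
  nonneg : ∀ j x, 0 ≤ ν j x
  one : ∀ j, ∑ x, ν j x = 1
  two : ∀ j, ∃ a a' : Fin q, (a' : ℕ) = a + Δ ∧ c ≤ ν j a ∧ c ≤ ν j a'

/-- The integers `n < q ^ L` whose `L` digits in base `q` (with leading zeros) are all in `D`. -/
def DigitsIn (q : ℕ) (D : Finset ℕ) (L : ℕ) : Set ℕ := {n | n < q ^ L ∧ ∀ j < L, n / q ^ j % q ∈ D}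

theorem prob_eq {b L : ℕ} (ν : Fin L → Fin b → ℝ) (P : ℕ → Prop) : Prob ν P = X17.MD.prob ν P := by
  classical
  rw [X17.MD.prob_eq P ((Finset.univ : Finset (Fin L → Fin b)).filter (fun d => P (X17.MD.num b d)))
    (fun d => by simp), Finset.sum_filter]
  unfold Prob
  apply Finset.sum_congr rfl
  intro d _
  have e : number b d = X17.MD.num b d := rfl
  rw [e]
  by_cases h : P (X17.MD.num b d)
  · rw [if_pos h, if_pos h]; rfl
  · rw [if_neg h, if_neg h]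

theorem laws {d b Δ : ℕ} {c c' : ℝ} (hc : c' ≤ c) {L : ℕ} {ν : Fin L → Fin b → ℝ} (h : DigitLaws d b Δ c ν) :
    X17.MD.Law b Δ c' ν :=
  ⟨h.nonneg, h.one, fun j => by
    obtain ⟨e, e', h1, h2, h3⟩ := h.two j
    exact ⟨e, e', h1, hc.trans h2, hc.trans h3⟩⟩

section

variable {d : ℕ} {m r b : ℤ → ℤ} {e : ℤ → ℕ} {C : Finset (ℤ × ℕ)} {ρ : ℤ × ℕ → ℝ}

theorem lam_pos (D : Data d m r b e) : 0 < Lam d m C ρ := by
  unfold Lam
  apply Finset.prod_pos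
  intro i hi
  rw [Finset.mem_range] at hi
  have h := (gm D).ne i (by positivity) (by exact_mod_cast hi)
  have h2 : ((m (i : ℤ) : ℤ) : ℝ) ≠ 0 := by exact_mod_cast h
  have hd0 : (0 : ℝ) < d := by
    have : 0 < d := by have := D.two_le; omega
    exact_mod_cast this
  positivity

theorem mu_eq (D : Data d m r b e) (hC : Class d m r e C ρ) :
    Pool.Agent.Y927.GP.mu (gm D) C ρ = Real.log (Lam d m C ρ) := (log_Lam D hC).symm

theorem typ_iff (D : Data d m r b e) (hC : Class d m r e C ρ) (ε Y : ℝ) (x : ℤ) :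
    Pool.Agent.Y927.GP.Typ (gm D) (Pool.Agent.Y927.GP.mu (gm D) C ρ) ε Y x ↔ Follows d m r (Lam d m C ρ) ε Y x := by
  unfold Pool.Agent.Y927.GP.Typ Follows
  rw [mu_eq D hC, gm_T]
  have h1 : ∀ j : ℕ, Real.exp (j * Real.log (Lam d m C ρ)) = Lam d m C ρ ^ j := by
    intro j
    rw [Real.exp_nat_mul, Real.exp_log (lam_pos D)]
  simp only [h1]
  exact Iff.rfl

/-- contracting classes -/
theorem contract (D : Data d m r b e) (hC : Class d m r e C ρ) (hlt : Lam d m C ρ < 1) {f : ℤ[X]}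
    (hf : 1 ≤ f.natDegree) {q : ℕ} (hq : 2 ≤ q) (hqd : Nat.Coprime q d) {c : ℝ} (hc : 0 < c) (hc1 : c ≤ 1) :
    (∃ η δ K : ℝ, 0 < η ∧ 0 < δ ∧ 0 < K ∧ ∀ (L Δ : ℕ) (ν : Fin L → Fin q → ℝ), 0 < Δ → Nat.Coprime Δ d →
      X17.MD.Law q Δ c ν → ∀ A : ℤ, X17.MD.prob ν (fun n => f.eval (A + (n : ℤ)) ∈ S d C ∧
        ∀ k : ℕ, Real.exp (-(η * L)) * |((f.eval (A + (n : ℤ)) : ℤ) : ℝ)| <
          |(((T d m r)^[k] (f.eval (A + (n : ℤ))) : ℤ) : ℝ)|) ≤ K * Real.exp (-(δ * L))) ∧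
    (∀ B : ℝ, ∃ η δ K : ℝ, 0 < η ∧ 0 < δ ∧ 0 < K ∧ ∀ (L Δ : ℕ) (ν : Fin L → Fin q → ℝ), 0 < Δ → Nat.Coprime Δ d →
      X17.MD.Law q Δ c ν → ∀ A : ℤ, |(A : ℝ)| ≤ Real.exp (B * L) →
      X17.MD.prob ν (fun n => f.eval (A + (n : ℤ)) ∈ S d C ∧
        ∀ k : ℕ, |((f.eval (A + (n : ℤ)) : ℤ) : ℝ)| ^ (1 - η) <
          |(((T d m r)^[k] (f.eval (A + (n : ℤ))) : ℤ) : ℝ)|) ≤ K * Real.exp (-(δ * L))) := by
  have hμ : Pool.Agent.Y927.GP.mu (gm D) C ρ < 0 := by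
    rw [mu_eq D hC]
    exact Real.log_neg (lam_pos D) hlt
  obtain ⟨c0, c2, δ, K, hc0, hc2, hδ, hK, h⟩ := X17.LC.drop (gm_fac D) (gm_cls D hC) hμ hf q hq hqd hc hc1
  refine ⟨⟨c2, δ, K, hc2, hδ, hK, fun L Δ ν hΔ0 hΔ hl A => ?_⟩, fun B => ?_⟩
  · refine (X17.MD.prob_mono hl.nonneg (fun n hn => ?_)).trans (h L Δ ν hΔ0 hΔ hl A)
    refine ⟨hn.1, fun h3 => ?_⟩
    obtain ⟨-, k, h4⟩ := h3
    exact absurd h4 (not_le.2 (hn.2 k))
  · obtain ⟨B', hB', hs⟩ := X17.LC.size_up q hq f B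
    refine ⟨c2 / B', δ, K + Real.exp (δ * (1 : ℕ)), by positivity, hδ, by positivity,
      fun L Δ ν hΔ0 hΔ hl A hA => ?_⟩
    apply X17.LC.all_L hδ hK 1 (X17.MD.prob_le_one hl.nonneg hl.one _)
    intro hL
    refine (X17.LC.prob_mono' hl.nonneg (fun n hnL hn => ?_)).trans (h L Δ ν hΔ0 hΔ hl A)
    refine ⟨hn.1, fun h3 => ?_⟩
    obtain ⟨h4, k, h5⟩ := h3
    have h6 := hs L A n hL hA hnL
    have hG : 0 < |((f.eval (A + (n : ℤ)) : ℤ) : ℝ)| := lt_of_lt_of_le (Real.exp_pos _) h4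
    exact absurd (h5.trans (Pool.Agent.Y57.HS.exp_to_pow hc2 hB' hG h6).1) (not_le.2 (hn.2 k))

/-- expanding classes -/
theorem expand (D : Data d m r b e) (hC : Class d m r e C ρ) (hgt : 1 < Lam d m C ρ) {f : ℤ[X]}
    (hf : 1 ≤ f.natDegree) {q : ℕ} (hq : 2 ≤ q) (hqd : Nat.Coprime q d) {c : ℝ} (hc : 0 < c) (hc1 : c ≤ 1) :
    (∃ η δ K : ℝ, 0 < η ∧ 0 < δ ∧ 0 < K ∧ ∀ (L Δ : ℕ) (ν : Fin L → Fin q → ℝ), 0 < Δ → Nat.Coprime Δ d →
      X17.MD.Law q Δ c ν → ∀ A : ℤ, X17.MD.prob ν (fun n => f.eval (A + (n : ℤ)) ∈ S d C ∧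
        ∀ k : ℕ, |(((T d m r)^[k] (f.eval (A + (n : ℤ))) : ℤ) : ℝ)| <
          Real.exp (η * L) * |((f.eval (A + (n : ℤ)) : ℤ) : ℝ)|) ≤ K * Real.exp (-(δ * L))) ∧
    (∀ B : ℝ, ∃ η δ K : ℝ, 0 < η ∧ 0 < δ ∧ 0 < K ∧ ∀ (L Δ : ℕ) (ν : Fin L → Fin q → ℝ), 0 < Δ → Nat.Coprime Δ d →
      X17.MD.Law q Δ c ν → ∀ A : ℤ, |(A : ℝ)| ≤ Real.exp (B * L) →
      X17.MD.prob ν (fun n => f.eval (A + (n : ℤ)) ∈ S d C ∧
        ∀ k : ℕ, |(((T d m r)^[k] (f.eval (A + (n : ℤ))) : ℤ) : ℝ)| <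
          |((f.eval (A + (n : ℤ)) : ℤ) : ℝ)| ^ (1 + η)) ≤ K * Real.exp (-(δ * L))) := by
  have hμ : 0 < Pool.Agent.Y927.GP.mu (gm D) C ρ := by
    rw [mu_eq D hC]
    exact Real.log_pos hgt
  obtain ⟨c0, c2, δ, K, hc0, hc2, hδ, hK, h⟩ := X17.LC.rise (gm_fac D) (gm_cls D hC) hμ hf q hq hqd hc hc1
  refine ⟨⟨c2, δ, K, hc2, hδ, hK, fun L Δ ν hΔ0 hΔ hl A => ?_⟩, fun B => ?_⟩
  · refine (X17.MD.prob_mono hl.nonneg (fun n hn => ?_)).trans (h L Δ ν hΔ0 hΔ hl A)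
    refine ⟨hn.1, fun h3 => ?_⟩
    obtain ⟨-, k, h4⟩ := h3
    exact absurd h4 (not_le.2 (hn.2 k))
  · obtain ⟨B', hB', hs⟩ := X17.LC.size_up q hq f B
    refine ⟨c2 / B', δ, K + Real.exp (δ * (1 : ℕ)), by positivity, hδ, by positivity,
      fun L Δ ν hΔ0 hΔ hl A hA => ?_⟩
    apply X17.LC.all_L hδ hK 1 (X17.MD.prob_le_one hl.nonneg hl.one _)
    intro hL
    refine (X17.LC.prob_mono' hl.nonneg (fun n hnL hn => ?_)).trans (h L Δ ν hΔ0 hΔ hl A)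
    refine ⟨hn.1, fun h3 => ?_⟩
    obtain ⟨h4, k, h5⟩ := h3
    have h6 := hs L A n hL hA hnL
    have hG : 0 < |((f.eval (A + (n : ℤ)) : ℤ) : ℝ)| := lt_of_lt_of_le (Real.exp_pos _) h4
    exact absurd ((Pool.Agent.Y57.HS.exp_to_pow hc2 hB' hG h6).2.trans h5) (not_le.2 (hn.2 k))

end

/-- the counting of the integers with digits in `D` -/
theorem count {q : ℕ} (hq : 2 ≤ q) {D : Finset ℕ} (hD : ∀ x ∈ D, x < q) {x : ℕ} (hx : x ∈ D)
    {L : ℕ} {X : ℝ} {P : ℕ → Prop} (h : X17.MD.prob (X17.MD.unif q D L) P ≤ X) :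
    ({n : ℕ | n ∈ DigitsIn q D L ∧ P n}.ncard : ℝ) ≤ X * (D.card : ℝ) ^ L := by
  have e : {n : ℕ | n ∈ DigitsIn q D L ∧ P n} = {n : ℕ | n < q ^ L ∧ (∀ j < L, n / q ^ j % q ∈ D) ∧ P n} := by
    ext n; simp only [DigitsIn, Set.mem_ofPred_eq, and_assoc]
  rw [e]
  refine (X17.MD.count_le (by omega) D hD ⟨x, hx⟩ L P).trans ?_
  rw [mul_comm]
  exact mul_le_mul_of_nonneg_right h (by positivity)

open Classical in
/-- **Main theorem.** Let `T` be a generalised Collatz map modulo `d` (`Data`), `q ≥ 2` a base coprime to `d`, `f` an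
integer polynomial of degree at least `1` and `c > 0`. In what follows the constants depend only on these data (and on
`C`, `ε`, `B`), and the estimates are uniform in `L`, `Δ > 0` coprime to `d`, the laws of the `L` digits (`DigitLaws`:
independent digits in base `q`, at each place two digits with difference `Δ` have probability at least `c`) and the
integer `A`.
1. For `1 ≤ t ≤ δ L / log L` and every set `E` of vectors, the probability that the vector of the residues modulo `d`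
of the first `t` terms of the trajectory of `f (A + n)` is in `E` differs from the proportion of the classes `u` modulo
`d ^ t` for which the vector of `f u` is in `E` by at most `K exp (- δ L / t)`.
2. Let `C` be a finite closed communicating class of Leigh's chain. For all `ε > 0` and `y ≥ 1` the probability that
`x = f (A + n)` is in `S_C` and does not satisfy `Follows` for some `Y` with `y ≤ Y ≤ exp (c₀ L)` is at most
`K y ^ (- δ)`.
3. Let moreover `Λ_C < 1`. The probability that `x = f (A + n)` is in `S_C` and no term of its trajectory has absolute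
value at most `exp (- η L) |x|` is at most `K exp (- δ L)`; if `|A| ≤ exp (B L)`, this holds with `|x| ^ (1 - η)` for
`exp (- η L) |x|`.
4. Let `Λ_C > 1`. The probability that `x = f (A + n)` is in `S_C` and no term of its trajectory has absolute
value at least `exp (η L) |x|` is at most `K exp (- δ L)`; if `|A| ≤ exp (B L)`, this holds with `|x| ^ (1 + η)` for
`exp (η L) |x|`.
5. Let `D` be a set of digits in base `q` which contains two digits `a < a'` with `a' - a` coprime to `d`, and let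
`|A| ≤ exp (B L)`. For all but `K exp (- δ L) |D| ^ L` of the `|D| ^ L` integers `n` with `L` digits, all in `D`: if
`x = f (A + n) ∈ S_C`, then some term of its trajectory has absolute value at most `|x| ^ (1 - η)` (if `Λ_C < 1`),
at least `|x| ^ (1 + η)` (if `Λ_C > 1`). -/
theorem result (d : ℕ) (m r b : ℤ → ℤ) (e : ℤ → ℕ) (D : Data d m r b e) (q : ℕ) (hq : 2 ≤ q)
    (hqd : Nat.Coprime q d) (f : ℤ[X]) (hf : 1 ≤ f.natDegree) (c : ℝ) (hc : 0 < c) :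
    (∃ δ K : ℝ, 0 < δ ∧ 0 < K ∧ ∀ (L t Δ : ℕ) (ν : Fin L → Fin q → ℝ), 1 ≤ t → (t : ℝ) * Real.log L ≤ δ * L →
      DigitLaws d q Δ c ν → ∀ (A : ℤ) (E : Set (Fin t → ℤ)),
        |Prob ν (fun n => residues d m r t (f.eval (A + (n : ℤ))) ∈ E) -
          (((range (d ^ t)).filter (fun u : ℕ => residues d m r t (f.eval (u : ℤ)) ∈ E)).card : ℝ) / (d : ℝ) ^ t| ≤
          K * Real.exp (-(δ * (L / t)))) ∧
    (∀ (C : Finset (ℤ × ℕ)) (ρ : ℤ × ℕ → ℝ), Class d m r e C ρ → ∀ ε : ℝ, 0 < ε →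
      ∃ c₀ δ K : ℝ, 0 < c₀ ∧ 0 < δ ∧ 0 < K ∧ ∀ (L Δ : ℕ) (ν : Fin L → Fin q → ℝ), DigitLaws d q Δ c ν →
        ∀ (A : ℤ) (y : ℝ), 1 ≤ y → Prob ν (fun n => f.eval (A + (n : ℤ)) ∈ S d C ∧ ∃ Y : ℝ, y ≤ Y ∧
          Y ≤ Real.exp (c₀ * L) ∧ ¬ Follows d m r (Lam d m C ρ) ε Y (f.eval (A + (n : ℤ)))) ≤ K * y ^ (-δ)) ∧
    (∀ (C : Finset (ℤ × ℕ)) (ρ : ℤ × ℕ → ℝ), Class d m r e C ρ → Lam d m C ρ < 1 →
      (∃ η δ K : ℝ, 0 < η ∧ 0 < δ ∧ 0 < K ∧ ∀ (L Δ : ℕ) (ν : Fin L → Fin q → ℝ), DigitLaws d q Δ c ν →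
        ∀ A : ℤ, Prob ν (fun n => f.eval (A + (n : ℤ)) ∈ S d C ∧
          ∀ k : ℕ, Real.exp (-(η * L)) * |((f.eval (A + (n : ℤ)) : ℤ) : ℝ)| <
            |(((T d m r)^[k] (f.eval (A + (n : ℤ))) : ℤ) : ℝ)|) ≤ K * Real.exp (-(δ * L))) ∧
      (∀ B : ℝ, ∃ η δ K : ℝ, 0 < η ∧ 0 < δ ∧ 0 < K ∧ ∀ (L Δ : ℕ) (ν : Fin L → Fin q → ℝ), DigitLaws d q Δ c ν →
        ∀ A : ℤ, |(A : ℝ)| ≤ Real.exp (B * L) → Prob ν (fun n => f.eval (A + (n : ℤ)) ∈ S d C ∧
          ∀ k : ℕ, |((f.eval (A + (n : ℤ)) : ℤ) : ℝ)| ^ (1 - η) <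
            |(((T d m r)^[k] (f.eval (A + (n : ℤ))) : ℤ) : ℝ)|) ≤ K * Real.exp (-(δ * L)))) ∧
    (∀ (C : Finset (ℤ × ℕ)) (ρ : ℤ × ℕ → ℝ), Class d m r e C ρ → 1 < Lam d m C ρ →
      (∃ η δ K : ℝ, 0 < η ∧ 0 < δ ∧ 0 < K ∧ ∀ (L Δ : ℕ) (ν : Fin L → Fin q → ℝ), DigitLaws d q Δ c ν →
        ∀ A : ℤ, Prob ν (fun n => f.eval (A + (n : ℤ)) ∈ S d C ∧
          ∀ k : ℕ, |(((T d m r)^[k] (f.eval (A + (n : ℤ))) : ℤ) : ℝ)| <
            Real.exp (η * L) * |((f.eval (A + (n : ℤ)) : ℤ) : ℝ)|) ≤ K * Real.exp (-(δ * L))) ∧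
      (∀ B : ℝ, ∃ η δ K : ℝ, 0 < η ∧ 0 < δ ∧ 0 < K ∧ ∀ (L Δ : ℕ) (ν : Fin L → Fin q → ℝ), DigitLaws d q Δ c ν →
        ∀ A : ℤ, |(A : ℝ)| ≤ Real.exp (B * L) → Prob ν (fun n => f.eval (A + (n : ℤ)) ∈ S d C ∧
          ∀ k : ℕ, |(((T d m r)^[k] (f.eval (A + (n : ℤ))) : ℤ) : ℝ)| <
            |((f.eval (A + (n : ℤ)) : ℤ) : ℝ)| ^ (1 + η)) ≤ K * Real.exp (-(δ * L)))) ∧
    (∀ (C : Finset (ℤ × ℕ)) (ρ : ℤ × ℕ → ℝ), Class d m r e C ρ → ∀ D : Finset ℕ, (∀ x ∈ D, x < q) →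
      (∃ a ∈ D, ∃ a' ∈ D, a < a' ∧ Nat.Coprime (a' - a) d) → ∀ B : ℝ,
      ∃ η δ K : ℝ, 0 < η ∧ 0 < δ ∧ 0 < K ∧ ∀ (L : ℕ) (A : ℤ), |(A : ℝ)| ≤ Real.exp (B * L) →
        (Lam d m C ρ < 1 → ({n : ℕ | n ∈ DigitsIn q D L ∧ f.eval (A + (n : ℤ)) ∈ S d C ∧
          ∀ k : ℕ, |((f.eval (A + (n : ℤ)) : ℤ) : ℝ)| ^ (1 - η) <
            |(((T d m r)^[k] (f.eval (A + (n : ℤ))) : ℤ) : ℝ)|}.ncard : ℝ) ≤
              K * Real.exp (-(δ * L)) * (D.card : ℝ) ^ L) ∧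
        (1 < Lam d m C ρ → ({n : ℕ | n ∈ DigitsIn q D L ∧ f.eval (A + (n : ℤ)) ∈ S d C ∧
          ∀ k : ℕ, |(((T d m r)^[k] (f.eval (A + (n : ℤ))) : ℤ) : ℝ)| <
            |((f.eval (A + (n : ℤ)) : ℤ) : ℝ)| ^ (1 + η)}.ncard : ℝ) ≤
              K * Real.exp (-(δ * L)) * (D.card : ℝ) ^ L)) := by
  have hc' : 0 < min c 1 := lt_min hc one_pos
  have hc1' : min c 1 ≤ 1 := min_le_right _ _
  refine ⟨?_, ?_, ?_, ?_, ?_⟩
  · obtain ⟨δ, K, hδ, hK, h⟩ := X17.LC.pattern_law hq D.two_le hqd hc' hc1'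
    refine ⟨δ, K, hδ, hK, fun L t Δ ν ht htL hl A E => ?_⟩
    have h1 := h L t Δ ν ht htL hl.pos hl.cop (laws (min_le_left _ _) hl) m r b e D f A E
    rw [prob_eq]
    refine le_trans (le_of_eq ?_) h1
    congr!
  · intro C ρ hC ε hε
    obtain ⟨c₀, δ, K, hc₀, hδ, hK, h⟩ := X17.LC.traj (gm_fac D) (gm_cls D hC) hf q hq hqd hc' hc1' hε 0
    refine ⟨c₀, δ, K, hc₀, hδ, hK, fun L Δ ν hl A y hy => ?_⟩
    rw [prob_eq]
    refine (X17.MD.prob_mono hl.nonneg (fun n hn => ?_)).trans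
      (h L Δ ν hl.pos hl.cop (laws (min_le_left _ _) hl) A y hy)
    obtain ⟨h1, Y, h2, h3, h4⟩ := hn
    exact ⟨h1, Y, h2, h3, fun h5 => h4 ((typ_iff D hC ε Y _).1 h5.2)⟩
  · intro C ρ hC hlt
    obtain ⟨h1, h2⟩ := contract D hC hlt hf hq hqd hc' hc1'
    refine ⟨?_, fun B => ?_⟩
    · obtain ⟨η, δ, K, hη, hδ, hK, h⟩ := h1
      refine ⟨η, δ, K, hη, hδ, hK, fun L Δ ν hl A => ?_⟩
      rw [prob_eq]
      exact h L Δ ν hl.pos hl.cop (laws (min_le_left _ _) hl) A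
    · obtain ⟨η, δ, K, hη, hδ, hK, h⟩ := h2 B
      refine ⟨η, δ, K, hη, hδ, hK, fun L Δ ν hl A hA => ?_⟩
      rw [prob_eq]
      exact h L Δ ν hl.pos hl.cop (laws (min_le_left _ _) hl) A hA
  · intro C ρ hC hgt
    obtain ⟨h1, h2⟩ := expand D hC hgt hf hq hqd hc' hc1'
    refine ⟨?_, fun B => ?_⟩
    · obtain ⟨η, δ, K, hη, hδ, hK, h⟩ := h1
      refine ⟨η, δ, K, hη, hδ, hK, fun L Δ ν hl A => ?_⟩
      rw [prob_eq]
      exact h L Δ ν hl.pos hl.cop (laws (min_le_left _ _) hl) A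
    · obtain ⟨η, δ, K, hη, hδ, hK, h⟩ := h2 B
      refine ⟨η, δ, K, hη, hδ, hK, fun L Δ ν hl A hA => ?_⟩
      rw [prob_eq]
      exact h L Δ ν hl.pos hl.cop (laws (min_le_left _ _) hl) A hA
  · intro C ρ hC D' hD' hpair B
    obtain ⟨x, hx, y, hy, hxy, hcop⟩ := hpair
    have hcard : 0 < D'.card := Finset.card_pos.2 ⟨x, hx⟩
    have hc0 : (0 : ℝ) < D'.card := by exact_mod_cast hcard
    have hle : 1 / (D'.card : ℝ) ≤ 1 := by
      rw [div_le_one hc0]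
      exact_mod_cast hcard
    have hpos : 0 < 1 / (D'.card : ℝ) := by positivity
    rcases lt_trichotomy (Lam d m C ρ) 1 with hlt | heq | hgt
    · obtain ⟨η, δ, K, hη, hδ, hK, h⟩ := (contract D hC hlt hf hq hqd hpos hle).2 B
      refine ⟨η, δ, K, hη, hδ, hK, fun L A hA => ⟨fun _ => ?_, fun h1 => absurd h1 (not_lt.2 hlt.le)⟩⟩
      exact count hq hD' hx
        (h L (y - x) _ (by omega) hcop (X17.MD.unif_law hD' hx hy hxy L) A hA)
    · refine ⟨1, 1, 1, one_pos, one_pos, one_pos, fun L A hA =>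
        ⟨fun h1 => absurd h1 (by rw [heq]; exact lt_irrefl _), fun h1 => absurd h1 (by rw [heq]; exact lt_irrefl _)⟩⟩
    · obtain ⟨η, δ, K, hη, hδ, hK, h⟩ := (expand D hC hgt hf hq hqd hpos hle).2 B
      refine ⟨η, δ, K, hη, hδ, hK, fun L A hA => ⟨fun h1 => absurd h1 (not_lt.2 hgt.le), fun _ => ?_⟩⟩
      exact count hq hD' hx
        (h L (y - x) _ (by omega) hcop (X17.MD.unif_law hD' hx hy hxy L) A hA)

end Pool.Agent.Results.MP_39d40e_nt.RandomDigits
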